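import Pool.Agent.MP_99eff6_co.Mg.Ends

namespace Pool.Agent.Results.MP_99eff6_co.Extremal

open Pool.Agent.MP_99eff6_co

/-- Every diamond-saturated family of subsets of `[n]` with exactly `n + 1` members is a maximal
chain, or the empty set with all singletons, or `[n]` with all complements of singletons. -/
theorem result (n : ℕ) (F : Finset (Finset (Fin n))) (hF : DiamondSaturated F)
    (hcard : F.card = n + 1) :
    (∃ C : Fin (n + 1) → Finset (Fin n), StrictMono C ∧ C 0 = ∅ ∧
      C (Fin.last n) = Finset.univ ∧ F = Finset.univ.image C) ∨
    F = insert ∅ (Finset.univ.image (fun i : Fin n => ({i} : Finset (Fin n)))) ∨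
    F = insert Finset.univ (Finset.univ.image (fun i : Fin n => ({i} : Finset (Fin n))ᶜ)) :=
  classification F hF hcard

end Pool.Agent.Results.MP_99eff6_co.Extremal
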