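import Pool.Agent.MP_99eff6_co.Mg.H9_Main

namespace Pool.Agent.Results.MP_99eff6_co.NoEnds

open Pool.Agent.MP_99eff6_co

/-- A diamond-saturated family of subsets of `[n]` that contains neither the empty set nor `[n]`
has at least `3n/2 - 3` members. -/
theorem result (n : ℕ) (F : Finset (Finset (Fin n))) (hF : DiamondSaturated F)
    (h0 : ∅ ∉ F) (h1 : Finset.univ ∉ F) : 3 * n ≤ 2 * F.card + 6 :=
  H9.bound (sat_of F hF) h0 h1

end Pool.Agent.Results.MP_99eff6_co.NoEnds
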